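import Pool.Agent.X169.WTF.Clo

/-!
# Symplectic structures on almost complex manifolds as limits with bounded primitives

`X` is a closed manifold (of any dimension, simply connected or not) with a continuous almost
complex structure `J`, `σ` is a smooth closed two-form and `τ` is a smooth two-form (not
necessarily closed). Let `J_n` be endomorphisms of the tangent bundle which converge to `J` at
every point, and let `β_n` be smooth one-forms which are locally uniformly bounded and converge at
every point to a continuous one-form `α`; there is no bound on the derivatives of `β_n`, and `α`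
need not be differentiable anywhere. Suppose that `σ + dβ_n ≥ τ` in the directions of `J_n`, in
the following sense: every point has a neighbourhood `U` in the chart, the same for all `n`, such
that `(σ + dβ_n)(v, J_n(p) v) ≥ τ(v, J_n(p) v)` at `y` for all `y` and `p` in `U` and all vectors
`v`. Suppose also that the differential of a smooth map `f` vanishes on the vectors `v` with
`τ(v, J v) ≤ 0`, and that in each fibre of `f` the components of the set of the points at which
`τ` does not tame `J` are small. Then `X` has symplectic structures: all classes near the class of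
`σ` contain symplectic forms taming `J`, which are joined with every form taming `J` by segments
of nondegenerate forms.
-/

set_option autoImplicit false

open Set
open scoped Manifold ContDiff

namespace Pool.Agent.Results.MP_2a78db_gt.TamingLimits

open Pool.Agent.Y501.SYP Pool.Agent.X169.WTP Pool.Agent.X169.WTF

theorem result (d m k : ℕ) (X Y : Type) [TopologicalSpace X] [ChartedSpace (ES d) X]
    [IsManifold 𝓘(ℝ, ES d) ∞ X] [CompactSpace X] [T2Space X]
    [TopologicalSpace Y] [ChartedSpace (ES m) Y] [IsManifold 𝓘(ℝ, ES m) ∞ Y] [T2Space Y]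
    (J : End (ES d) X) (hJ : IsAlmostComplex J)
    (f : X → Y) (hf : ContMDiff 𝓘(ℝ, ES d) 𝓘(ℝ, ES m) ∞ f)
    (σ τ : Form (ES d) X 2) (hσ : IsSmooth σ) (hσc : IsClosedForm σ) (hτ : IsSmooth τ)
    (κ : Fin k → Form (ES d) X 2) (hκ : ∀ i, IsSmooth (κ i)) (hκc : ∀ i, IsClosedForm (κ i))
    (Jn : ℕ → End (ES d) X) (hJn : ConvEnd Jn J)
    (βn : ℕ → Form (ES d) X 1) (ηn : ℕ → Form (ES d) X 2) (hβn : ∀ n, IsSmooth (βn n))
    (hDn : ∀ n, IsD (βn n) (ηn n))
    (α : Form (ES d) X 1) (hα : IsContinuousForm α) (hconv : ConvForm βn α)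
    (hpos : UnifAbove σ τ ηn Jn)
    (hker : ∀ (x : X) (v : TangentSpace 𝓘(ℝ, ES d) x), qd τ J x v ≤ 0 →
      mfderiv 𝓘(ℝ, ES d) 𝓘(ℝ, ES m) f x v = 0)
    (hsmall : SmallOnFibres τ J f) :
    ∃ (β : Form (ES d) X 1) (η : Form (ES d) X 2), IsSmooth β ∧ IsSmooth η ∧ IsD β η ∧
      ∃ ε : ℝ, 0 < ε ∧ ∀ s : Fin k → ℝ, (∀ i, |s i| ≤ ε) →
        IsTamingSymplectic (addF (perturb σ κ s) η) J ∧
        ∀ ρ : Form (ES d) X 2, (∀ x, TamesAt ρ J x) → ∀ u : ℝ, 0 ≤ u → u ≤ 1 →
          Nondeg (seg ρ (addF (perturb σ κ s) η) u) :=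
  closedness J hJ f hf σ τ hσ hσc hτ κ hκ hκc Jn hJn βn ηn hβn hDn α hα hconv hpos hker hsmall

end Pool.Agent.Results.MP_2a78db_gt.TamingLimits
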